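import Mathlib
import Pool.Agent.Lib.helper5.PTree

namespace Pool.Agent.Results.MP_3ffbec_co.No

open SimpleGraph Pool.Agent.Lib.helper5

def disk {V : Type} (G : SimpleGraph V) (v : V) (r : ℕ) : Set V := {u | G.edist u v ≤ r}

/-- `B` is a tree-decomposition of `G` along the finite tree `T`. -/
def IsTD {V ι : Type} (G : SimpleGraph V) (T : SimpleGraph ι) (B : ι → Set V) : Prop :=
  Finite ι ∧ T.IsTree ∧ (∀ v, ∃ t, v ∈ B t) ∧ (∀ u v, G.Adj u v → ∃ t, u ∈ B t ∧ v ∈ B t) ∧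
    ∀ v, (T.induce {t | v ∈ B t}).Connected

noncomputable def tb {V : Type} (G : SimpleGraph V) : ℕ := sInf {r | ∃ (ι : Type) (T : SimpleGraph ι)
  (B : ι → Set V), IsTD G T B ∧ ∀ t, ∃ v, B t ⊆ disk G v r}

noncomputable def stb {V : Type} (G : SimpleGraph V) : ℕ := sInf {r | ∃ (ι : Type) (T : SimpleGraph ι)
  (B : ι → Set V), IsTD G T B ∧ ∀ t, ∃ v ∈ B t, B t = disk G v r}

abbrev W (n R : ℕ) := Fin (n + 3) ⊕ Fin (n + 1) × Fin 5 × Fin 3 × Fin (R + 1)

variable {n R : ℕ}

def X : W n R → ℕ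
  | .inl x => x
  | .inr (w, _, i, _) => w + i

def J : W n R → ℕ
  | .inl _ => 0
  | .inr (_, _, _, j) => j + 1

def K : W n R → Option (Fin (n + 1) × Fin 5)
  | .inl _ => none
  | .inr (w, q, _, _) => some (w, q)

def Cp (u v : W n R) : Prop := K u = none ∨ K v = none ∨ K u = K v

def G (n R : ℕ) : SimpleGraph (W n R) where
  Adj u v := Cp u v ∧ (X u - X v) + (X v - X u) + (J u - J v) + (J v - J u) = 1
  symm := ⟨fun u v h => ⟨by have := h.1; unfold Cp at *; tauto, by have := h.2; omega⟩⟩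
  loopless := ⟨fun u h => by simpa using h.2⟩

def mk (w : Fin (n + 1)) (q : Fin 5) (i : Fin 3) (j : ℕ) : W n R :=
  if j = 0 then .inl ⟨w + i, by omega⟩ else .inr (w, q, i, ⟨min (j - 1) R, by omega⟩)

theorem mk_spec (w : Fin (n + 1)) (q : Fin 5) (i : Fin 3) {j : ℕ} (h : j ≤ R + 1) :
    X (mk w q i j : W n R) = w + i ∧ J (mk w q i j : W n R) = j ∧
      (K (mk w q i j : W n R) = none ∨ K (mk w q i j : W n R) = some (w, q)) := by
  unfold mk
  split_ifs <;> simp [X, J, K] <;> omega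

theorem KJ (u : W n R) : (K u = none ↔ J u = 0) ∧ J u ≤ R + 1 := by
  rcases u with x | ⟨w, q, i, j⟩ <;> simp [K, J]
  omega

theorem le1 {u v : W n R} (h : Cp u v)
    (h' : (X u - X v) + (X v - X u) + (J u - J v) + (J v - J u) ≤ 1) : (G n R).edist u v ≤ 1 := by
  rw [edist_le_one_iff_adj_or_eq]
  rcases h'.eq_or_lt with e | e
  · exact Or.inl ⟨h, e⟩
  right
  rcases u with x | ⟨w, q, i, j⟩ <;> rcases v with x' | ⟨w', q', i', j'⟩ <;>
    simp only [Cp, X, J, K, Fin.ext_iff, Sum.inl.injEq, Sum.inr.injEq, Prod.mk.injEq, reduceCtorEq,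
      Option.some.injEq, false_or] at h e ⊢ <;> omega

theorem cp_mk (w : Fin (n + 1)) (q : Fin 5) (i i' : Fin 3) {j j' : ℕ} (h : j ≤ R + 1)
    (h' : j' ≤ R + 1) : Cp (mk w q i j : W n R) (mk w q i' j') := by
  have := (mk_spec w q i h).2.2
  have := (mk_spec w q i' h').2.2
  unfold Cp
  grind

theorem down (u : W n R) : ∃ x, x.1 = X u ∧ (G n R).edist u (.inl x) ≤ J u := by
  rcases u with x | ⟨w, q, i, j⟩
  · exact ⟨x, rfl, by simp⟩
  have : ∀ k ≤ R + 1, (G n R).edist (mk w q i k) (mk w q i 0) ≤ k := by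
    intro k hk
    induction k with
    | zero => simp
    | succ k ih =>
      have a := mk_spec w q i hk
      have b := mk_spec w q i (show k ≤ R + 1 by omega)
      refine (SimpleGraph.edist_triangle (v := mk w q i k)).trans ?_
      rw [Nat.cast_succ, add_comm]
      exact add_le_add (ih (by omega)) (le1 (cp_mk _ _ _ _ hk (by omega)) (by omega))
  refine ⟨⟨w + i, by omega⟩, rfl, ?_⟩
  have := this (j + 1) (by omega)
  simpa [mk, J, min_eq_left (Nat.le_of_lt_succ j.2)] using this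

theorem base (k : ℕ) : ∀ x y : Fin (n + 3), y.1 = x + k → (G n R).edist (.inl x) (.inl y) ≤ k := by
  induction k with
  | zero => intro x y h; simp [Fin.ext_iff, h]
  | succ k ih =>
    intro x y h
    refine (SimpleGraph.edist_triangle (v := .inl ⟨x + k, by omega⟩)).trans ?_
    rw [Nat.cast_succ]
    exact add_le_add (ih _ _ rfl) (le1 (Or.inl rfl) (by simp [X, J]; omega))

theorem upper (u v : W n R) :
    (G n R).edist u v ≤ (J u + ((X u - X v) + (X v - X u)) + J v : ℕ) := by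
  obtain ⟨x, a, b⟩ := down u
  obtain ⟨y, c, d⟩ := down v
  have : (G n R).edist (.inl x) (.inl y) ≤ ((X u - X v) + (X v - X u) : ℕ) := by
    rcases le_total x.1 y with h | h
    · exact base _ x y (by omega)
    · exact edist_comm ▸ base _ y x (by omega)
  rw [Nat.cast_add, Nat.cast_add]
  exact (SimpleGraph.edist_triangle (v := .inl y)).trans (add_le_add
    ((SimpleGraph.edist_triangle (v := .inl x)).trans (add_le_add b this)) (edist_comm ▸ d))

def D (u v : W n R) : ℕ := (X u - X v) + (X v - X u) +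
  if K u = K v then (J u - J v) + (J v - J u) else J u + J v

theorem lower {u v : W n R} (p : (G n R).Walk u v) : D u v ≤ p.length := by
  induction p with
  | nil => simp [D]
  | @cons a b c h p ih =>
    have := (KJ a).1
    have := (KJ b).1
    have := (KJ c).1
    rw [Walk.length_cons]
    obtain ⟨h1, h2⟩ := h
    unfold D Cp at *
    grind

theorem mem {u c : W n R} (h : K u = none ∨ K u ≠ K c) (r : ℕ) :
    u ∈ disk (G n R) c r ↔ J u + ((X u - X c) + (X c - X u)) + J c ≤ r := by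
  refine ⟨fun h' => ?_, fun h' => (upper u c).trans (Nat.cast_le.mpr h')⟩
  obtain ⟨p, hp⟩ := exists_walk_of_edist_ne_top (ne_top_of_le_ne_top (by simp) h')
  have h1 : p.length ≤ r := Nat.cast_le.mp (hp.trans_le h')
  have := lower p
  have := (KJ u).1
  have := (KJ c).1
  unfold D at *
  grind

theorem key {ι : Type} {T : SimpleGraph ι} {B : ι → Set (W n R)} (h : IsTD (G n R) T B) {r : ℕ}
    (hr : r ≤ R) (c : ι → W n R) (hB : ∀ t, B t = disk (G n R) (c t) r) (β : ι → ℕ → ℕ)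
    (hβ : ∀ t x, β t x = (x - X (c t)) + (X (c t) - x) + J (c t)) (w : Fin (n + 1)) (i : Fin 3)
    (a b : ι) (ha : ∀ t, β a w ≤ β t w) (hb : ∀ t, β b (w + i) ≤ β t (w + i))
    (ha' : β a w ≤ r) (hb' : β b (w + i) ≤ r) : ∃ t, β t w = β a w ∧ β t (w + i) = β b (w + i) := by
  by_contra hn
  push Not at hn
  obtain ⟨p, hp⟩ := (h.2.1.connected a b).exists_isPath
  obtain ⟨d, hd, h1, h2⟩ := p.exists_boundary_dart {t | β t w = β a w} rfl fun e => hn b e rfl
  obtain ⟨q, hq⟩ : ∃ q : Fin 5, ∀ t ∈ [a, b, d.fst, d.snd], K (c t) ≠ some (w, q) := by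
    obtain ⟨q, -, hq⟩ := Finset.exists_mem_notMem_of_card_lt_card (t := Finset.univ)
      (s := (([a, b, d.fst, d.snd].map fun t => ((K (c t)).map Prod.snd).getD 0).toFinset))
      ((List.toFinset_card_le _).trans_lt (by simp))
    refine ⟨q, fun t ht e => hq (List.mem_toFinset.mpr (List.mem_map.mpr ⟨t, ht, by simp [e]⟩))⟩
  have hm : ∀ t ∈ [a, b, d.fst, d.snd], ∀ i : Fin 3, ∀ j ≤ R + 1,
      (mk w q i j ∈ B t ↔ j + β t (w + i) ≤ r) := by
    intro t ht i j hj
    obtain ⟨e1, e2, e3⟩ := mk_spec w q i hj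
    rw [hB, mem (e3.imp_right fun e => e ▸ (hq t ht).symm), e1, e2, hβ, add_assoc]
  let S : Set (W n R) := {z | ¬ (z ∈ B d.fst ∧ z ∈ B d.snd)}
  let Wk : W n R → W n R → Prop := fun u v => ∃ p : (G n R).Walk u v, ∀ z ∈ p.support, z ∈ S
  have st : ∀ u v v', Wk u v → (G n R).edist v v' ≤ 1 → v' ∈ S → Wk u v' := by
    rintro u v v' ⟨p, hp⟩ e hv
    rcases edist_le_one_iff_adj_or_eq.mp e with e | rfl
    · exact ⟨p.concat e, fun z hz => by
        rw [Walk.support_concat, List.mem_append, List.mem_singleton] at hz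
        exact hz.elim (hp z) fun e => e ▸ hv⟩
    · exact ⟨p, hp⟩
  have col : ∀ i : Fin 3, ∀ j, (∀ k, j ≤ k → k ≤ R + 1 → mk w q i k ∈ S) → ∀ k, j ≤ k → k ≤ R + 1 →
      Wk (mk w q i j) (mk w q i k) := by
    intro i j hj k hk
    induction k, hk using Nat.le_induction with
    | base => exact fun h => ⟨.nil, by simpa using hj j le_rfl h⟩
    | succ k hk ih =>
      intro h
      have a := mk_spec w q i h
      have b := mk_spec w q i (show k ≤ R + 1 by omega)
      exact st _ _ _ (ih (by omega)) (le1 (cp_mk _ _ _ _ (by omega) h) (by omega))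
        (hj _ (by omega) h)
  have bot : ∀ i, mk w q i (R + 1) ∈ S := fun i e => by
    have := (hm d.fst (by simp) i _ le_rfl).mp e.1
    omega
  have c1 := col 0 (r - β a w) (fun k a1 a2 e => by
    have := (hm d.snd (by simp) 0 _ a2).mp e.2
    have := ha d.snd
    simp only [Set.mem_ofPred_eq, Fin.val_zero, add_zero] at *
    omega) (R + 1) (by omega) le_rfl
  obtain ⟨p2, hp2⟩ := col i (r - β b (w + i)) (fun k a1 a2 e => by
    have := (hm d.fst (by simp) i _ a2).mp e.1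
    have := hb d.fst
    have := hn _ h1
    omega) (R + 1) (by omega) le_rfl
  have s0 := mk_spec (R := R) w q 0 le_rfl
  have s1 := mk_spec (R := R) w q 1 le_rfl
  have s2 := mk_spec (R := R) w q i le_rfl
  obtain ⟨p1, hp1⟩ := st _ _ _ (st _ _ _ c1 (le1 (cp_mk _ _ _ _ le_rfl le_rfl)
    (by simp at s0 s1; omega)) (bot 1)) (le1 (cp_mk _ _ _ _ le_rfl le_rfl)
    (by simp at s1; omega)) (bot i)
  obtain ⟨z, hz, e⟩ := PTree.sep h.2.1.isAcyclic B h.2.2.2.1 (fun v => (h.2.2.2.2 v).preconnected)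
    p hp d hd (p1.append p2.reverse) ((hm a (by simp) 0 _ (by omega)).mpr (by simp; omega))
    ((hm b (by simp) i _ (by omega)).mpr (by omega))
  rcases (Walk.mem_support_append_iff _ _).mp hz with hz | hz
  · exact hp1 z hz e
  · exact hp2 z (by simpa using hz) e

theorem nostrong {ι : Type} {T : SimpleGraph ι} {B : ι → Set (W (2 * R + 2) R)}
    (h : IsTD (G _ R) T B) {r : ℕ} (hr : r ≤ R) (c : ι → W _ R)
    (hB : ∀ t, B t = disk (G _ R) (c t) r) : False := by
  have := h.1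
  have := h.2.1.connected.nonempty
  obtain ⟨β, hβ⟩ : ∃ β : ι → ℕ → ℕ, ∀ t x, β t x = (x - X (c t)) + (X (c t) - x) + J (c t) :=
    ⟨_, fun _ _ => rfl⟩
  choose a ha using fun x => Finite.exists_min fun t => β t x
  have hA : ∀ x < 2 * R + 5, β (a x) x ≤ r := by
    intro x hx
    obtain ⟨t, ht⟩ := h.2.2.1 (.inl ⟨x, hx⟩)
    rw [hB, mem (Or.inl rfl)] at ht
    refine (ha x t).trans ?_
    rw [hβ]
    simpa [X, J] using ht
  have k := fun w (hw : w < 2 * R + 3) (i : Fin 3) => key h hr c hB β hβ ⟨w, hw⟩ i (a w) (a (w + i))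
    (ha w) (ha _) (hA w (by omega)) (hA _ (by omega))
  have h1 : ∀ w < 2 * R + 3, 2 * β (a (w + 1)) (w + 1) ≤ β (a w) w + β (a (w + 1 + 1)) (w + 1 + 1) := by
    intro w hw
    obtain ⟨t, e1, e2⟩ : ∃ t, β t w = β (a w) w ∧ β t (w + 1 + 1) = β (a (w + 1 + 1)) (w + 1 + 1) :=
      k w hw 2
    have := ha (w + 1) t
    rw [← e1, ← e2]
    rw [hβ t] at this
    rw [hβ t, hβ t]
    omega
  obtain ⟨t, e1, e2⟩ : ∃ t, β t (R + 1) = β (a (R + 1)) (R + 1) ∧
      β t (R + 1 + 1) = β (a (R + 1 + 1)) (R + 1 + 1) :=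
    k (R + 1) (by omega) 1
  rw [hβ t] at e1 e2
  rcases lt_or_gt_of_ne (show β (a (R + 1)) (R + 1) ≠ β (a (R + 1 + 1)) (R + 1 + 1) by omega) with e | e
  · have : ∀ j ≤ R + 1, β (a (R + 1 + j)) (R + 1 + j) < β (a (R + 1 + j + 1)) (R + 1 + j + 1) ∧
        j ≤ β (a (R + 1 + j)) (R + 1 + j) := by
      intro j hj
      induction j with
      | zero => exact ⟨e, Nat.zero_le _⟩
      | succ j ih =>
        have := ih (by omega)
        have := h1 (R + 1 + j) (by omega)
        rw [← add_assoc]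
        omega
    have := this _ le_rfl
    have := hA (R + 1 + (R + 1)) (by omega)
    omega
  · have : ∀ j w, w + j = R + 1 → β (a (w + 1)) (w + 1) < β (a w) w ∧ j ≤ β (a w) w := by
      intro j
      induction j with
      | zero => rintro w (rfl : w = _); exact ⟨e, Nat.zero_le _⟩
      | succ j ih =>
        intro w hw
        have := ih (w + 1) (by omega)
        have := h1 w (by omega)
        omega
    have := this (R + 1) 0 (by omega)
    have := hA 0 (by omega)
    omega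

abbrev N (n R : ℕ) := Fin (n + 1) ⊕ Fin (n + 1) × Fin 5 × Fin (R + 1)

def par : N n R → N n R
  | .inl w => .inl ⟨w - 1, by omega⟩
  | .inr (w, q, j) => if j.1 = 0 then .inl w else .inr (w, q, ⟨j - 1, by omega⟩)

def rk : N n R → ℕ
  | .inl w => w
  | .inr (w, _, j) => w + j + 1

def bag : N n R → Set (W n R)
  | .inl w => {v | K v = none ∧ w ≤ X v ∧ X v ≤ w + 2}
  | .inr (w, q, j) => {v | (K v = none ∨ K v = some (w, q)) ∧ w ≤ X v ∧ X v ≤ w + 2 ∧
      j ≤ J v ∧ J v ≤ j + 1}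

theorem hrk (v : N n R) (h : v ≠ .inl 0) : rk (par v) < rk v := by
  rcases v with w | ⟨w, q, j⟩
  · have : w.1 ≠ 0 := fun e => h (congrArg _ (Fin.ext e))
    simp only [rk, par]
    omega
  · unfold par
    simp only
    split_ifs <;> simp only [rk] <;> omega

theorem td : IsTD (G n R) (PTree.PT (.inl 0) par) bag := by
  have c : ∀ v, ((PTree.PT (.inl 0) par).induce {t : N n R | v ∈ bag t}).Connected := by
    rintro (x | ⟨w, q, i, j⟩)
    · refine PTree.sub_conn rk hrk _ (.inl ⟨x - 2, by omega⟩) (by simp [bag, K, X]; omega) ?_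
      rintro (w | ⟨w, q, j⟩) h e
      · have : w.1 ≠ x - 2 := fun q => e (congrArg _ (Fin.ext q))
        simp only [bag, K, X, par, Set.mem_ofPred_eq, true_and] at h ⊢
        exact ⟨fun q => by have : w.1 = 0 := congrArg Fin.val (Sum.inl.inj q); omega, by omega⟩
      · simp [bag, K, X, J] at h
        simp [par, h, bag, K, X]
    · refine PTree.sub_conn rk hrk _ (.inr (w, q, j)) (by simp [bag, K, X, J]; omega) ?_
      rintro (w' | ⟨w', q', j'⟩) h e
      · simp [bag, K] at h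
      · simp [bag, K, X, J] at h
        obtain ⟨⟨rfl, rfl⟩, h⟩ := h
        simp [Fin.ext_iff] at e
        simp [par, show j'.1 ≠ 0 by omega, bag, K, X, J]
        omega
  refine ⟨inferInstance, PTree.isTree rk hrk, fun v => ?_, ?_, c⟩
  · obtain ⟨t, ht⟩ := (c v).nonempty
    exact ⟨t, ht⟩
  rintro (x | ⟨w, q, i, j⟩) (x' | ⟨w', q', i', j'⟩) ⟨h1, h2⟩ <;> simp [Cp, K, X, J] at h1 h2
  · exact ⟨.inl ⟨max x.1 x'.1 - 2, by omega⟩, by simp only [bag, K, X, Set.mem_ofPred_eq, true_and]; omega⟩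
  · exact ⟨.inr (w', q', ⟨0, by omega⟩), by
      simp only [bag, K, X, J, Set.mem_ofPred_eq, or_true, true_or, true_and]; omega⟩
  · exact ⟨.inr (w, q, ⟨0, by omega⟩), by
      simp only [bag, K, X, J, Set.mem_ofPred_eq, or_true, true_or, true_and]; omega⟩
  · obtain ⟨rfl, rfl⟩ := h1
    exact ⟨.inr (w, q, ⟨max j.1 j'.1, by omega⟩), by
      simp only [bag, K, X, J, Set.mem_ofPred_eq, or_true, true_and]; omega⟩

theorem near (w : Fin (n + 1)) (q : Fin 5) (j : ℕ) (hj : j ≤ R + 1) (v : W n R)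
    (h : (K v = none ∨ K v = some (w, q)) ∧ w ≤ X v ∧ X v ≤ w + 2 ∧ j ≤ J v ∧ J v ≤ j + 1) :
    v ∈ disk (G n R) (mk w q 1 j) 2 := by
  have a := mk_spec w q ⟨X v - w, by omega⟩ hj
  have b := mk_spec w q 1 hj
  refine (SimpleGraph.edist_triangle (v := mk w q ⟨X v - w, by omega⟩ j)).trans
    (add_le_add (le1 ?_ ?_) (le1 (cp_mk _ _ _ _ hj hj) ?_))
  · unfold Cp
    grind
  · simp only at a
    omega
  · simp only [Fin.val_one] at a b
    omega

theorem result : ∀ R : ℕ, ∃ (V : Type) (_ : Fintype V) (H : SimpleGraph V),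
    H.Connected ∧ tb H ≤ 2 ∧ R < stb H := by
  intro R
  refine ⟨W (2 * R + 2) R, inferInstance, G _ R, ?_, Nat.sInf_le ⟨_, _, _, td, ?_⟩, ?_⟩
  · exact @Connected.mk _ _ (fun u v => reachable_of_edist_ne_top
      (ne_top_of_le_ne_top (ENat.natCast_ne_top _) (upper u v))) ⟨.inl 0⟩
  · rintro (w | ⟨w, q, j⟩)
    · exact ⟨_, fun v h => near w 0 0 (by omega) v
        ⟨Or.inl h.1, h.2.1, h.2.2, Nat.zero_le _, by rw [(KJ v).1.mp h.1]; omega⟩⟩
    · exact ⟨_, near w q j (by omega)⟩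
  by_contra hc
  obtain ⟨ι, T, B, h1, h2⟩ := Nat.sInf_mem (s := {r | ∃ (ι : Type) (T : SimpleGraph ι)
    (B : ι → Set (W (2 * R + 2) R)), IsTD (G _ R) T B ∧ ∀ t, ∃ v ∈ B t, B t = disk (G _ R) v r})
    ⟨3 * R + 5, Unit, ⊥, fun _ => Set.univ, ⟨inferInstance, .of_subsingleton, fun _ => ⟨(), trivial⟩,
      fun _ _ _ => ⟨(), trivial, trivial⟩, fun _ => @Connected.of_subsingleton _ _ ⟨⟨(), trivial⟩⟩ _⟩,
      fun _ => ⟨.inl 0, trivial, (Set.eq_univ_of_forall fun v => (upper v _).trans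
        (Nat.cast_le.mpr (by
          have := (KJ v).2
          rcases v with x | ⟨w, q, i, j⟩ <;> simp [X, J] <;> omega))).symm⟩⟩
  choose c _ hB using h2
  exact nostrong h1 (not_lt.mp hc) c hB

end Pool.Agent.Results.MP_3ffbec_co.No
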